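import Pool.Agent.TCM.Lst
import Pool.Agent.FLO.MutK

/-!
# From mutations of classes to mutations of objects

A full exceptional collection of objects whose classes are given can be mutated together with its
classes: the Euler form and the Chern character are additive on distinguished triangles, and the
mutations of objects are cones.
-/

set_option autoImplicit false

open scoped BigOperators
open CategoryTheory CategoryTheory.Limits CategoryTheory.Pretriangulated

namespace Pool.Agent.TCM

open Pool.Agent.FLG Pool.Agent.FLG.Flag Pool.Agent.FLO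

section classes

variable {ι V V' : Type} [Fintype ι] [AddCommGroup V] [Module ℂ V] [AddCommGroup V'] [Module ℂ V']
  {P : RootPairing ι ℂ V V'} (b : P.Base)

private theorem euler_add_left' (x y z : KClass P) :
    euler b (x + y) z = euler b x z + euler b y z := by
  unfold euler
  refine Finsupp.sum_add_index' (fun μ => ?_) fun μ m n => ?_
  · simp [Finsupp.sum]
  · simp [Finsupp.sum, add_mul, Finset.sum_add_distrib]

private theorem euler_add_right' (x y z : KClass P) :
    euler b z (x + y) = euler b z x + euler b z y := by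
  unfold euler
  rw [← Finsupp.sum_add]
  refine Finsupp.sum_congr fun μ _ => ?_
  refine Finsupp.sum_add_index' (fun ν => ?_) fun ν m n => ?_
  · simp
  · push_cast
    ring

private noncomputable def eL (z : KClass P) : KClass P →+ ℂ :=
  AddMonoidHom.mk' (fun x => euler b x z) fun x y => euler_add_left' b x y z

private noncomputable def eR (z : KClass P) : KClass P →+ ℂ :=
  AddMonoidHom.mk' (fun x => euler b z x) fun x y => euler_add_right' b x y z

theorem euler_sub_smul_left (x y z : KClass P) (m : ℤ) :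
    euler b (x - m • y) z = euler b x z - m * euler b y z := by
  have h : eL b z (x - m • y) = eL b z x - m • eL b z y := by rw [map_sub, map_zsmul]
  rw [zsmul_eq_mul] at h
  exact h

theorem euler_sub_smul_right (x y z : KClass P) (m : ℤ) :
    euler b z (x - m • y) = euler b z x - m * euler b z y := by
  have h : eR b z (x - m • y) = eR b z x - m • eR b z y := by rw [map_sub, map_zsmul]
  rw [zsmul_eq_mul] at h
  exact h

theorem euler_neg_left' (x z : KClass P) : euler b (-x) z = -euler b x z :=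
  map_neg (eL b z) x

theorem euler_neg_right' (x z : KClass P) : euler b z (-x) = -euler b z x :=
  map_neg (eR b z) x

variable [Fintype P.weylGroup] [DecidableEq P.weylGroup]

private theorem chern_add' (x y : KClass P) : chern b (x + y) = chern b x + chern b y := by
  funext u
  unfold chern
  refine Finsupp.sum_add_index' (fun ν => ?_) fun ν m n => ?_
  · simp
  · push_cast
    ring

private noncomputable def cH : KClass P →+ (P.weylGroup → ℂ) :=
  AddMonoidHom.mk' (fun x => chern b x) fun x y => chern_add' b x y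

theorem chern_sub_smul (x y : KClass P) (m : ℤ) :
    chern b (x - m • y) = chern b x - m • chern b y := by
  have h : cH b (x - m • y) = cH b x - m • cH b y := by rw [map_sub, map_zsmul]
  exact h

theorem chern_neg' (x : KClass P) : chern b (-x) = -chern b x :=
  map_neg (cH b) x

end classes

universe v u

variable {D : Type u} [Category.{v} D] [Preadditive D] [HasZeroObject D] [HasShift D ℤ]
  [∀ n : ℤ, (shiftFunctor D n).Additive] [Pretriangulated D] [Linear ℂ D]
  [∀ n : ℤ, Functor.Linear ℂ (shiftFunctor D n)]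

variable {ι V V' : Type} [Fintype ι] [AddCommGroup V] [Module ℂ V] [AddCommGroup V'] [Module ℂ V']
  {P : RootPairing ι ℂ V V'} (b : P.Base) [Fintype P.weylGroup] [DecidableEq P.weylGroup]

/-- A full exceptional collection of objects with given classes. -/
structure Rzn (cl : D → P.weylGroup → ℂ) (l : List (D × KClass P)) : Prop where
  fec : IsFEC (l.map Prod.fst)
  cl_eq : ∀ p ∈ l, cl p.1 = chern b p.2
  chi_eq : ∀ p ∈ l, ∀ q ∈ l, (chi p.1 q.1 : ℂ) = euler b p.2 q.2

/-- replace one object by a combination of two others -/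
private theorem rzn_of [HomFinite D] {cl : D → P.weylGroup → ℂ} (hcl : IsAdd cl)
    {l l' : List (D × KClass P)} {E F G : D} {x y : KClass P} {m : ℤ} (h : Rzn b cl l)
    (hE : (E, x) ∈ l) (hF : (F, y) ∈ l) (hfec : IsFEC (l'.map Prod.fst))
    (hmem : ∀ p ∈ l', p = (G, y - m • x) ∨ p ∈ l)
    (hG : ∀ {M : Type} [AddCommGroup M] (φ : D → M), IsAdd φ → φ G = φ F - m • φ E) :
    Rzn b cl l' := by
  have hr : ∀ q ∈ l, (chi q.1 G : ℂ) = euler b q.2 (y - m • x) := by
    intro q hq
    have h1 : chi q.1 G = chi q.1 F - m • chi q.1 E := hG _ (isAdd_chi_right q.1)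
    rw [h1, euler_sub_smul_right, ← h.chi_eq q hq _ hF, ← h.chi_eq q hq _ hE]
    simp
  have hl : ∀ q ∈ l, (chi G q.1 : ℂ) = euler b (y - m • x) q.2 := by
    intro q hq
    have h1 : chi G q.1 = chi F q.1 - m • chi E q.1 := hG _ (isAdd_chi_left q.1)
    rw [h1, euler_sub_smul_left, ← h.chi_eq _ hF q hq, ← h.chi_eq _ hE q hq]
    simp
  have hg : (chi G G : ℂ) = euler b (y - m • x) (y - m • x) := by
    have h1 : chi G G = chi G F - m • chi G E := hG _ (isAdd_chi_right G)
    rw [h1, euler_sub_smul_right, ← hl _ hF, ← hl _ hE]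
    simp
  refine ⟨hfec, fun p hp => ?_, fun p hp q hq => ?_⟩
  · rcases hmem p hp with rfl | hp
    · show cl G = chern b (y - m • x)
      rw [hG cl hcl, chern_sub_smul, ← h.cl_eq _ hF, ← h.cl_eq _ hE]
    · exact h.cl_eq p hp
  · rcases hmem p hp with rfl | hp
    · rcases hmem q hq with rfl | hq
      · exact hg
      · exact hl q hq
    · rcases hmem q hq with rfl | hq
      · exact hr p hp
      · exact h.chi_eq p hp q hq

theorem Rzn.left [HomFinite D] {cl : D → P.weylGroup → ℂ} (hcl : IsAdd cl)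
    {a c : List (D × KClass P)} {E F : D} {x y : KClass P} {m : ℤ} (hm : euler b x y = m)
    (h : Rzn b cl (a ++ (E, x) :: (F, y) :: c)) :
    ∃ G : D, Rzn b cl (a ++ (G, y - m • x) :: (E, x) :: c) := by
  have hE : (E, x) ∈ a ++ (E, x) :: (F, y) :: c := by simp
  have hF : (F, y) ∈ a ++ (E, x) :: (F, y) :: c := by simp
  have hfec : IsFEC (a.map Prod.fst ++ E :: F :: c.map Prod.fst) := by
    have := h.fec
    simpa using this
  have hχ : chi E F = m := by
    have h1 : (chi E F : ℂ) = euler b x y := h.chi_eq _ hE _ hF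
    rw [hm] at h1
    exact_mod_cast h1
  obtain ⟨G, hG, hφ⟩ := hfec.lmut
  refine ⟨G, rzn_of b (G := G) (m := m) hcl h hE hF ?_ ?_ ?_⟩
  · simpa using hG
  · intro p hp
    simp only [List.mem_append, List.mem_cons] at hp ⊢
    tauto
  · intro M _ φ hadd
    rw [← hχ]
    exact hφ φ hadd

theorem Rzn.right [HomFinite D] {cl : D → P.weylGroup → ℂ} (hcl : IsAdd cl)
    {a c : List (D × KClass P)} {E F : D} {x y : KClass P} {m : ℤ} (hm : euler b x y = m)
    (h : Rzn b cl (a ++ (E, x) :: (F, y) :: c)) :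
    ∃ G : D, Rzn b cl (a ++ (F, y) :: (G, x - m • y) :: c) := by
  have hE : (E, x) ∈ a ++ (E, x) :: (F, y) :: c := by simp
  have hF : (F, y) ∈ a ++ (E, x) :: (F, y) :: c := by simp
  have hfec : IsFEC (a.map Prod.fst ++ E :: F :: c.map Prod.fst) := by
    have := h.fec
    simpa using this
  have hχ : chi E F = m := by
    have h1 : (chi E F : ℂ) = euler b x y := h.chi_eq _ hE _ hF
    rw [hm] at h1
    exact_mod_cast h1
  obtain ⟨G, hG, hφ⟩ := hfec.rmut
  refine ⟨G, rzn_of b (G := G) (m := m) hcl h hF hE ?_ ?_ ?_⟩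
  · simpa using hG
  · intro p hp
    simp only [List.mem_append, List.mem_cons] at hp ⊢
    tauto
  · intro M _ φ hadd
    rw [← hχ]
    exact hφ φ hadd

theorem Rzn.shift [HomFinite D] {cl : D → P.weylGroup → ℂ} (hcl : IsAdd cl)
    {a c : List (D × KClass P)} {E : D} {x : KClass P} (h : Rzn b cl (a ++ (E, x) :: c)) :
    Rzn b cl (a ++ (E⟦(1 : ℤ)⟧, -x) :: c) := by
  have hE : (E, x) ∈ a ++ (E, x) :: c := by simp
  have hfec : IsFEC (a.map Prod.fst ++ E :: c.map Prod.fst) := by
    have := h.fec
    simpa using this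
  have hx : -x = x - (2 : ℤ) • x := by
    rw [two_smul]
    abel
  rw [hx]
  refine rzn_of b (G := E⟦(1 : ℤ)⟧) (m := 2) hcl h hE hE ?_ ?_ ?_
  · simpa using hfec.shift
  · intro p hp
    simp only [List.mem_append, List.mem_cons] at hp ⊢
    tauto
  · intro M _ φ hadd
    rw [isAdd_shift_one hadd, two_smul]
    abel

theorem lift_mutated [HomFinite D] {cl : D → P.weylGroup → ℂ} (hcl : IsAdd cl)
    {L K : List (KClass P)} (h : Mutated b L K) (l : List (D × KClass P))
    (hl : l.map Prod.snd = L) (hr : Rzn b cl l) :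
    ∃ l' : List (D × KClass P), l'.map Prod.snd = K ∧ Rzn b cl l' := by
  induction h with
  | refl => exact ⟨l, hl, hr⟩
  | shift l₁ l₂ x _ ih =>
    obtain ⟨l', h1, h2⟩ := ih
    obtain ⟨a, d, rfl, ha, hd⟩ := List.map_eq_append_iff.1 h1
    obtain ⟨⟨E, x'⟩, c, rfl, hx, hc⟩ := List.map_eq_cons_iff.1 hd
    simp only at hx
    subst hx
    exact ⟨_, by simp [ha, hc], Rzn.shift b hcl h2⟩
  | right l₁ l₂ x y m hm _ ih =>
    obtain ⟨l', h1, h2⟩ := ih
    obtain ⟨a, d, rfl, ha, hd⟩ := List.map_eq_append_iff.1 h1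
    obtain ⟨⟨E, x'⟩, d', rfl, hx, hd'⟩ := List.map_eq_cons_iff.1 hd
    obtain ⟨⟨F, y'⟩, c, rfl, hy, hc⟩ := List.map_eq_cons_iff.1 hd'
    simp only at hx hy
    subst hx hy
    obtain ⟨G, hG⟩ := Rzn.right b hcl hm h2
    exact ⟨_, by simp [ha, hc], hG⟩
  | left l₁ l₂ x y m hm _ ih =>
    obtain ⟨l', h1, h2⟩ := ih
    obtain ⟨a, d, rfl, ha, hd⟩ := List.map_eq_append_iff.1 h1
    obtain ⟨⟨E, x'⟩, d', rfl, hx, hd'⟩ := List.map_eq_cons_iff.1 hd
    obtain ⟨⟨F, y'⟩, c, rfl, hy, hc⟩ := List.map_eq_cons_iff.1 hd'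
    simp only at hx hy
    subst hx hy
    obtain ⟨G, hG⟩ := Rzn.left b hcl hm h2
    exact ⟨_, by simp [ha, hc], hG⟩

/-- Mutations of a full exceptional collection of objects `L μ`, `μ ∈ B`, with the classes `f μ`. -/
theorem exists_objects [HomFinite D] {cl : D → P.weylGroup → ℂ} (hcl : IsAdd cl) {α : Type}
    {B : List α} {f : α → KClass P} {N : ℕ} {v : Fin N → KClass P}
    (h : Mutated b (B.map f) (List.ofFn v)) (L : α → D)
    (hL : ∀ μ ∈ B, cl (L μ) = chern b (f μ))
    (hχ : ∀ μ ∈ B, ∀ ν ∈ B, (chi (L μ) (L ν) : ℂ) = euler b (f μ) (f ν))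
    (hfec : IsFEC (B.map L)) :
    ∃ E : Fin N → D, IsFullExceptional E ∧ (∀ j, cl (E j) = chern b (v j)) ∧
      ∀ i j, (chi (E i) (E j) : ℂ) = euler b (v i) (v j) := by
  obtain ⟨l', h1, h2⟩ := lift_mutated b hcl h (B.map fun μ => (L μ, f μ))
    (by simp [Function.comp_def]) ⟨by simpa [Function.comp_def] using hfec, by
      intro p hp
      obtain ⟨μ, hμ, rfl⟩ := List.mem_map.1 hp
      exact hL μ hμ, by
      intro p hp q hq
      obtain ⟨μ, hμ, rfl⟩ := List.mem_map.1 hp
      obtain ⟨ν, hν, rfl⟩ := List.mem_map.1 hq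
      exact hχ μ hμ ν hν⟩
  have hN : l'.length = N := by
    have := congrArg List.length h1
    simpa using this
  subst hN
  have hv : ∀ j : Fin l'.length, (l'.get j).2 = v j := by
    intro j
    have h3 : (l'.map Prod.snd)[(j : ℕ)]'(by simp) = (List.ofFn v)[(j : ℕ)]'(by simp) := by
      simp only [h1]
    simpa using h3
  have hl' : l'.map Prod.fst = List.ofFn fun j : Fin l'.length => (l'.get j).1 := by
    apply List.ext_getElem
    · simp
    · intro i h3 h4
      simp
  refine ⟨fun j => (l'.get j).1, ?_, fun j => ?_, fun i j => ?_⟩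
  · rw [← IsFEC.ofFn, ← hl']
    exact h2.fec
  · rw [← hv j]
    exact h2.cl_eq _ (List.get_mem _ _)
  · rw [← hv i, ← hv j]
    exact h2.chi_eq _ (List.get_mem _ _) _ (List.get_mem _ _)

end Pool.Agent.TCM
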