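import Pool.Agent.TCM.Defs

/-!
# Shifts and isomorphisms: dimensions of Hom spaces and additive functions

Composition with isomorphisms and the shift functors are linear equivalences on Hom spaces, so the
dimensions `hd E F k` are invariant under isomorphisms and change in the obvious way under shifts.
An additive function vanishes on zero objects, is invariant under isomorphisms and takes the value
`(-1)^n φ(E)` at `E⟦n⟧`.
-/

open scoped BigOperators ZeroObject
open CategoryTheory CategoryTheory.Limits CategoryTheory.Pretriangulated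

namespace Pool.Agent.TCM

universe v u

variable {D : Type u} [Category.{v} D] [Preadditive D] [HasZeroObject D] [HasShift D ℤ]
  [∀ n : ℤ, (shiftFunctor D n).Additive] [Pretriangulated D] [Linear ℂ D]
  [∀ n : ℤ, Functor.Linear ℂ (shiftFunctor D n)]

theorem finrank_iso {E E' F F' : D} (a : E ≅ E') (b : F ≅ F') :
    Module.finrank ℂ (E ⟶ F) = Module.finrank ℂ (E' ⟶ F') :=
  (Linear.homCongr ℂ a b).finrank_eq

theorem hd_iso {E E' F F' : D} (a : E ≅ E') (b : F ≅ F') (k : ℤ) : hd E F k = hd E' F' k :=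
  finrank_iso a ((shiftFunctor D k).mapIso b)

theorem hd_zero_left {E F : D} (h : IsZero E) (k : ℤ) : hd E F k = 0 := by
  have : Subsingleton (E ⟶ F⟦k⟧) := ⟨fun f g => h.eq_of_src f g⟩
  exact Module.finrank_zero_of_subsingleton

theorem hd_zero_right {E F : D} (h : IsZero F) (k : ℤ) : hd E F k = 0 := by
  have h' : IsZero (F⟦k⟧) := (shiftFunctor D k).map_isZero h
  have : Subsingleton (E ⟶ F⟦k⟧) := ⟨fun f g => h'.eq_of_tgt f g⟩
  exact Module.finrank_zero_of_subsingleton

theorem hd_shift_right (E F : D) (n k : ℤ) : hd E (F⟦n⟧) k = hd E F (n + k) :=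
  finrank_iso (Iso.refl E) (((shiftFunctorAdd D n k).app F).symm)

theorem hd_shift_left (E F : D) (n k : ℤ) : hd (E⟦n⟧) F k = hd E F (k - n) := by
  have h1 : Module.finrank ℂ (E ⟶ F⟦k - n⟧) =
      Module.finrank ℂ (E⟦n⟧ ⟶ (F⟦k - n⟧)⟦n⟧) := by
    refine (LinearEquiv.ofBijective ((shiftFunctor D n).mapLinearMap ℂ) ⟨?_, ?_⟩).finrank_eq
    · intro f g hfg
      exact (shiftFunctor D n).map_injective hfg
    · intro f
      exact (shiftFunctor D n).map_surjective f
  have h2 : Module.finrank ℂ (E⟦n⟧ ⟶ (F⟦k - n⟧)⟦n⟧) = Module.finrank ℂ (E⟦n⟧ ⟶ F⟦k⟧) :=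
    finrank_iso (Iso.refl _) ((shiftFunctorAdd' D (k - n) n k (by ring)).app F).symm
  exact (h1.trans h2).symm

theorem IsExc.shift {E : D} (h : IsExc E) (n : ℤ) : IsExc (E⟦n⟧) := by
  intro k
  rw [hd_shift_left, hd_shift_right, show n + (k - n) = k by ring]
  exact h k

private theorem isAdd_zero_obj {M : Type} [AddCommGroup M] {φ : D → M} (h : IsAdd φ) :
    φ (0 : D) = 0 := by
  have := h (contractibleTriangle (0 : D)) (contractible_distinguished (0 : D))
  simpa [contractibleTriangle] using this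

theorem isAdd_iso {M : Type} [AddCommGroup M] {φ : D → M} (h : IsAdd φ) {E F : D} (e : E ≅ F) :
    φ E = φ F := by
  have hT : Triangle.mk e.hom (0 : F ⟶ 0) (0 : (0 : D) ⟶ E⟦(1 : ℤ)⟧) ∈ distTriang D := by
    refine isomorphic_distinguished _ (contractible_distinguished E) _ ?_
    refine Triangle.isoMk _ _ (Iso.refl _) e.symm (Iso.refl _) ?_ ?_ ?_
    · show e.hom ≫ e.inv = 𝟙 E ≫ 𝟙 E
      simp
    · exact (isZero_zero D).eq_of_tgt _ _
    · exact (isZero_zero D).eq_of_src _ _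
  have h1 := h _ hT
  simp only [Triangle.mk_obj₁, Triangle.mk_obj₂, Triangle.mk_obj₃, isAdd_zero_obj h,
    add_zero] at h1
  exact h1.symm

theorem isAdd_zero {M : Type} [AddCommGroup M] {φ : D → M} (h : IsAdd φ) {Z : D} (hZ : IsZero Z) :
    φ Z = 0 := by
  rw [isAdd_iso h (hZ.iso (isZero_zero D)), isAdd_zero_obj h]

private theorem isAdd_shift_one {M : Type} [AddCommGroup M] {φ : D → M} (h : IsAdd φ) (E : D) :
    φ (E⟦(1 : ℤ)⟧) = -φ E := by
  have h1 := h _ (rot_of_distTriang _ (contractible_distinguished E))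
  simp only [Triangle.rotate, contractibleTriangle, Triangle.mk_obj₁, Triangle.mk_obj₂,
    Triangle.mk_obj₃, isAdd_zero_obj h] at h1
  exact (neg_eq_of_add_eq_zero_right h1.symm).symm

theorem isAdd_shift {M : Type} [AddCommGroup M] {φ : D → M} (h : IsAdd φ) (E : D) (n : ℤ) :
    φ (E⟦n⟧) = (Int.negOnePow n : ℤ) • φ E := by
  induction n using Int.induction_on with
  | zero =>
    rw [isAdd_iso h ((shiftFunctorZero D ℤ).app E)]
    simp
  | succ n ih =>
    rw [isAdd_iso h ((shiftFunctorAdd D (n : ℤ) 1).app E)]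
    show φ ((E⟦(n : ℤ)⟧)⟦(1 : ℤ)⟧) = _
    rw [isAdd_shift_one h, ih, Int.negOnePow_succ]
    simp
  | pred n ih =>
    have h1 : φ (E⟦(-(n : ℤ))⟧) = φ ((E⟦(-(n : ℤ) - 1)⟧)⟦(1 : ℤ)⟧) :=
      isAdd_iso h ((shiftFunctorAdd' D (-(n : ℤ) - 1) 1 (-(n : ℤ)) (by ring)).app E)
    rw [isAdd_shift_one h, ih] at h1
    have h2 : φ (E⟦(-(n : ℤ) - 1)⟧) = -((Int.negOnePow (-(n : ℤ)) : ℤ) • φ E) := by
      rw [h1, neg_neg]
    rw [h2, Int.negOnePow_sub, Int.negOnePow_one]
    simp

end Pool.Agent.TCM
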