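import Pool.Agent.TCM.Rk
import Pool.Agent.TCM.Sh

/-!
# The long exact sequence of `Hom(-, Y)`

`r k`, `s k` are the ranks of `mor₁`, `mor₂` on `Hom(-, Y⟦k⟧)` and `t k` is the rank of `mor₃` on
`Hom(-, Y⟦k + 1⟧)`. The dimensions come from `finrank_mid_R` for the triangle and its two
rotations; the rank of `mor₁⟦1⟧` on `Hom(-, Y⟦k + 1⟧)` is `r k`, because the shift by `1` is a linear
equivalence of Hom spaces.
-/

open scoped BigOperators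
open CategoryTheory CategoryTheory.Limits CategoryTheory.Pretriangulated

namespace Pool.Agent.TCM

universe v u

variable {D : Type u} [Category.{v} D] [Preadditive D] [HasZeroObject D] [HasShift D ℤ]
  [∀ n : ℤ, (shiftFunctor D n).Additive] [Pretriangulated D] [Linear ℂ D]
  [∀ n : ℤ, Functor.Linear ℂ (shiftFunctor D n)]

/-- the shift by `1`, followed by an isomorphism of the target, on Hom spaces -/
private noncomputable def lesB_eq {Z W : D} (B : D) (a : (Z⟦(1 : ℤ)⟧) ≅ W) :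
    (B ⟶ Z) ≃ₗ[ℂ] (B⟦(1 : ℤ)⟧ ⟶ W) :=
  (LinearEquiv.ofBijective ((shiftFunctor D (1 : ℤ)).mapLinearMap ℂ)
    ⟨fun _ _ h => (shiftFunctor D (1 : ℤ)).map_injective h,
      fun g => (shiftFunctor D (1 : ℤ)).map_surjective g⟩ :
      (B ⟶ Z) ≃ₗ[ℂ] (B⟦(1 : ℤ)⟧ ⟶ Z⟦(1 : ℤ)⟧)).trans
    (Linear.homCongr ℂ (Iso.refl _) a)

private theorem lesB_eq_apply {Z W : D} (B : D) (a : (Z⟦(1 : ℤ)⟧) ≅ W) (g : B ⟶ Z) :
    lesB_eq B a g = g⟦(1 : ℤ)⟧' ≫ a.hom := by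
  simp [lesB_eq, Linear.homCongr_apply]

private theorem lesB_rk {A B Z W : D} (f : A ⟶ B) (a : (Z⟦(1 : ℤ)⟧) ≅ W) :
    rkR (f⟦(1 : ℤ)⟧') W = rkR f Z := by
  have h : Linear.leftComp ℂ W (f⟦(1 : ℤ)⟧') ∘ₗ (lesB_eq B a).toLinearMap =
      (lesB_eq A a).toLinearMap ∘ₗ Linear.leftComp ℂ Z f := by
    apply LinearMap.ext
    intro g
    show f⟦(1 : ℤ)⟧' ≫ lesB_eq B a g = lesB_eq A a (f ≫ g)
    rw [lesB_eq_apply, lesB_eq_apply, Functor.map_comp, Category.assoc]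
  unfold rkR
  rw [← LinearEquiv.range_comp (lesB_eq B a) (Linear.leftComp ℂ W (f⟦(1 : ℤ)⟧')), h,
    LinearMap.range_comp]
  exact LinearEquiv.finrank_map_eq _ _

theorem lesB [HomFinite D] (T : Triangle D) (hT : T ∈ distTriang D) (Y : D) :
    ∃ r s t : ℤ → ℕ, (∀ k, hd T.obj₁ Y k = r k + t k) ∧
      (∀ k, hd T.obj₂ Y k = r k + s k) ∧ (∀ k, hd T.obj₃ Y k = s k + t (k - 1)) ∧
      ∀ k, s k = 0 → ∀ g : T.obj₃ ⟶ Y⟦k⟧, T.mor₂ ≫ g = 0 := by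
  refine ⟨fun k => rkR T.mor₁ (Y⟦k⟧), fun k => rkR T.mor₂ (Y⟦k⟧),
    fun k => rkR T.mor₃ (Y⟦k + 1⟧), fun k => ?_, fun k => ?_, fun k => ?_, fun k hk g => ?_⟩
  · have h1 : Module.finrank ℂ ((T.obj₁⟦(1 : ℤ)⟧) ⟶ Y⟦k + 1⟧) =
        rkR T.mor₃ (Y⟦k + 1⟧) + rkR (-T.mor₁⟦(1 : ℤ)⟧') (Y⟦k + 1⟧) :=
      finrank_mid_R T.rotate.rotate
        (rot_of_distTriang _ (rot_of_distTriang _ hT)) (Y⟦k + 1⟧)
    have h2 : hd (T.obj₁⟦(1 : ℤ)⟧) Y (k + 1) = hd T.obj₁ Y k := by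
      rw [hd_shift_left, add_sub_cancel_right]
    rw [rkR_neg, lesB_rk T.mor₁ (((shiftFunctorAdd' D k 1 (k + 1) rfl).app Y).symm)] at h1
    rw [← h2]
    show Module.finrank ℂ ((T.obj₁⟦(1 : ℤ)⟧) ⟶ Y⟦k + 1⟧) = _
    rw [h1]
    exact Nat.add_comm _ _
  · exact finrank_mid_R T hT (Y⟦k⟧)
  · show _ = rkR T.mor₂ (Y⟦k⟧) + rkR T.mor₃ (Y⟦k - 1 + 1⟧)
    rw [sub_add_cancel]
    exact finrank_mid_R T.rotate (rot_of_distTriang _ hT) (Y⟦k⟧)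
  · exact rkR_eq_zero T.mor₂ (Y⟦k⟧) hk g

end Pool.Agent.TCM
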