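import Pool.Agent.TCM.LesA
import Pool.Agent.TCM.LesB

/-!
# Attaching shifts of an object

If `B` is obtained from `A` by attaching shifts of `E`, then `A` and `B` have the same Hom spaces
to (from) all objects orthogonal to `E`, their values under additive functions differ by a multiple
of the value at `E`, and one is generated by a class containing `E` if and only if the other is.
-/

open scoped BigOperators
open CategoryTheory CategoryTheory.Limits CategoryTheory.Pretriangulated

namespace Pool.Agent.TCM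

universe v u

variable {D : Type u} [Category.{v} D] [Preadditive D] [HasZeroObject D] [HasShift D ℤ]
  [∀ n : ℤ, (shiftFunctor D n).Additive] [Pretriangulated D] [Linear ℂ D]
  [∀ n : ℤ, Functor.Linear ℂ (shiftFunctor D n)]

theorem Att.trans {E A B C : D} (h : Att E A B) (h' : Att E B C) : Att E A C := by
  induction h' with
  | refl => exact h
  | step B' C' j f g w hT _ ih => exact Att.step B' C' j f g w hT ih

theorem Att.hd_left [HomFinite D] {E A B : D} (h : Att E A B) {Y : D}
    (hY : ∀ k, hd E Y k = 0) (k : ℤ) : hd B Y k = hd A Y k := by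
  induction h with
  | refl => rfl
  | step B' C' j f g w hT _ ih =>
    obtain ⟨r, s, t, h1, h2, h3, _⟩ := lesB (Triangle.mk f g w) hT Y
    have h0 : ∀ k, r k + t k = 0 := by
      intro k
      rw [← h1 k]
      show hd (E⟦j⟧) Y k = 0
      rw [hd_shift_left, hY]
    have e2 : hd B' Y k = r k + s k := h2 k
    have e3 : hd C' Y k = s k + t (k - 1) := h3 k
    have z1 := h0 k
    have z2 := h0 (k - 1)
    rw [← ih, e2, e3]
    omega

theorem Att.hd_right [HomFinite D] {E A B : D} (h : Att E A B) {Y : D}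
    (hY : ∀ k, hd Y E k = 0) (k : ℤ) : hd Y B k = hd Y A k := by
  induction h with
  | refl => rfl
  | step B' C' j f g w hT _ ih =>
    obtain ⟨r, s, t, h1, h2, h3, _⟩ := lesA (Triangle.mk f g w) hT Y
    have h0 : ∀ k, t (k - 1) + r k = 0 := by
      intro k
      rw [← h1 k]
      show hd Y (E⟦j⟧) k = 0
      rw [hd_shift_right, hY]
    have e2 : hd Y B' k = r k + s k := h2 k
    have e3 : hd Y C' k = s k + t k := h3 k
    have z1 := h0 k
    have z2 := h0 (k + 1)
    rw [show k + 1 - 1 = k by ring] at z2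
    rw [← ih, e2, e3]
    omega

theorem Att.add {E A B : D} (h : Att E A B) :
    ∃ n : ℤ, ∀ {M : Type} [AddCommGroup M] (φ : D → M), IsAdd φ → φ B = φ A - n • φ E := by
  induction h with
  | refl => exact ⟨0, fun φ _ => by rw [zero_smul, sub_zero]⟩
  | step B' C' j f g w hT _ ih =>
    obtain ⟨n, hn⟩ := ih
    refine ⟨n + (Int.negOnePow j : ℤ), fun φ hφ => ?_⟩
    have h1 : φ B' = φ (E⟦j⟧) + φ C' := hφ _ hT
    rw [isAdd_shift hφ, hn φ hφ] at h1
    rw [add_smul, sub_add_eq_sub_sub, h1]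
    abel

theorem Att.gen {E A B : D} (h : Att E A B) {S : Set D} (hE : Gen S E) :
    Gen S A ↔ Gen S B := by
  induction h with
  | refl => exact Iff.rfl
  | step B' C' j f g w hT _ ih =>
    refine ih.trans ⟨fun hB => ?_, fun hC => ?_⟩
    · exact Gen.cone (Triangle.mk f g w) hT (Gen.shift E j hE) hB
    · have h2 := rot_of_distTriang _ (rot_of_distTriang _ hT)
      have h3 : Gen S (B'⟦(1 : ℤ)⟧) :=
        Gen.cone _ h2 hC (Gen.shift _ (1 : ℤ) (Gen.shift E j hE))
      exact Gen.iso _ _ ((shiftFunctorCompIsoId D (1 : ℤ) (-1) (by norm_num)).app B')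
        (Gen.shift _ (-1) h3)

theorem Att.of_cone {E A C : D} {j : ℤ} (f : E⟦j⟧ ⟶ A) (g : A ⟶ C)
    (h : C ⟶ (E⟦j⟧)⟦(1 : ℤ)⟧) (hT : Triangle.mk f g h ∈ distTriang D) : Att E A C :=
  Att.step A C j f g h hT Att.refl

private theorem att_iso (T : Triangle D) (hT : T ∈ distTriang D) {X : D} (e : T.obj₁ ≅ X) :
    Triangle.mk (e.inv ≫ T.mor₁) T.mor₂ (T.mor₃ ≫ e.hom⟦(1 : ℤ)⟧') ∈ distTriang D := by
  refine isomorphic_distinguished _ hT _ ?_
  refine Triangle.isoMk _ _ e.symm (Iso.refl _) (Iso.refl _) ?_ ?_ ?_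
  · exact Category.comp_id _
  · exact (Category.comp_id _).trans (Category.id_comp _).symm
  · have h1 : (T.mor₃ ≫ e.hom⟦(1 : ℤ)⟧') ≫ e.inv⟦(1 : ℤ)⟧' = T.mor₃ := by
      rw [Category.assoc, ← Functor.map_comp, e.hom_inv_id, CategoryTheory.Functor.map_id, Category.comp_id]
    exact h1.trans (Category.id_comp _).symm

theorem Att.of_cocone {E A R : D} {k : ℤ} (f : R ⟶ A) (g : A ⟶ E⟦k⟧)
    (h : E⟦k⟧ ⟶ R⟦(1 : ℤ)⟧) (hT : Triangle.mk f g h ∈ distTriang D) : Att E R A :=
  Att.step R A (k - 1) _ _ _ (att_iso _ (inv_rot_of_distTriang _ hT)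
    ((shiftFunctorAdd' D k (-1) (k - 1) (by ring)).app E).symm) Att.refl

end Pool.Agent.TCM
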