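import Pool.Agent.TCM.LesA
import Pool.Agent.TCM.LesB

/-!
# The Euler form is additive

By the long exact sequences (`lesA`, `lesB`) and the telescoping of the alternating sums
`∑ (-1)^k (t (k - 1) + t k) = 0` for finitely supported `t : ℤ → ℕ` (`sum_alt`).
-/

open scoped BigOperators
open CategoryTheory CategoryTheory.Limits CategoryTheory.Pretriangulated

namespace Pool.Agent.TCM

universe v u

variable {D : Type u} [Category.{v} D] [Preadditive D] [HasZeroObject D] [HasShift D ℤ]
  [∀ n : ℤ, (shiftFunctor D n).Additive] [Pretriangulated D] [Linear ℂ D]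
  [∀ n : ℤ, Functor.Linear ℂ (shiftFunctor D n)]

private theorem supp_aux (u : ℤ → ℕ) (hu : (Function.support u).Finite) :
    (Function.support fun k : ℤ => (Int.negOnePow k : ℤ) * (u k : ℤ)).Finite := by
  refine hu.subset ?_
  intro k hk h0
  apply hk
  show (Int.negOnePow k : ℤ) * (u k : ℤ) = 0
  rw [h0]
  simp

private theorem sum_add_aux (u w : ℤ → ℕ) (hu : (Function.support u).Finite)
    (hw : (Function.support w).Finite) :
    ∑ᶠ k : ℤ, (Int.negOnePow k : ℤ) * ((u k + w k : ℕ) : ℤ) =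
      (∑ᶠ k : ℤ, (Int.negOnePow k : ℤ) * (u k : ℤ)) +
        ∑ᶠ k : ℤ, (Int.negOnePow k : ℤ) * (w k : ℤ) := by
  rw [← finsum_add_distrib (supp_aux u hu) (supp_aux w hw)]
  refine finsum_congr fun k => ?_
  push_cast
  ring

private theorem sum_shift_aux (t : ℤ → ℕ) :
    ∑ᶠ k : ℤ, (Int.negOnePow k : ℤ) * (t (k - 1) : ℤ) =
      - ∑ᶠ k : ℤ, (Int.negOnePow k : ℤ) * (t k : ℤ) := by
  rw [← finsum_neg_distrib, ← finsum_comp_equiv (Equiv.addRight (1 : ℤ))]
  refine finsum_congr fun k => ?_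
  have h1 : (Equiv.addRight (1 : ℤ)) k = k + 1 := rfl
  rw [h1, Int.negOnePow_succ, add_sub_cancel_right]
  push_cast
  ring

private theorem sum_alt (r s t : ℤ → ℕ) (hr : (Function.support r).Finite)
    (hs : (Function.support s).Finite) (ht : (Function.support t).Finite) :
    ∑ᶠ k : ℤ, (Int.negOnePow k : ℤ) * ((r k + s k : ℕ) : ℤ) =
      (∑ᶠ k : ℤ, (Int.negOnePow k : ℤ) * ((t (k - 1) + r k : ℕ) : ℤ)) +
        ∑ᶠ k : ℤ, (Int.negOnePow k : ℤ) * ((s k + t k : ℕ) : ℤ) := by
  have ht' : (Function.support fun k : ℤ => t (k - 1)).Finite := by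
    have h2 : (Function.support fun k : ℤ => t (k - 1)) =
        (fun k : ℤ => k - 1) ⁻¹' Function.support t := rfl
    rw [h2]
    exact ht.preimage (fun a _ b _ hab => by
      have h3 : a - 1 = b - 1 := hab
      omega)
  rw [sum_add_aux r s hr hs, sum_add_aux (fun k => t (k - 1)) r ht' hr, sum_add_aux s t hs ht,
    sum_shift_aux t]
  ring

theorem isAdd_chi_right [HomFinite D] (Y : D) : IsAdd fun F : D => chi Y F := by
  intro T hT
  obtain ⟨r, s, t, h1, h2, h3, -⟩ := lesA T hT Y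
  have b1 := HomFinite.bounded Y T.obj₁
  have b3 := HomFinite.bounded Y T.obj₃
  have hr : (Function.support r).Finite := b1.subset fun k hk => by
    have hk' : r k ≠ 0 := hk
    show hd Y T.obj₁ k ≠ 0
    rw [h1]
    omega
  have hs : (Function.support s).Finite := b3.subset fun k hk => by
    have hk' : s k ≠ 0 := hk
    show hd Y T.obj₃ k ≠ 0
    rw [h3]
    omega
  have ht : (Function.support t).Finite := b3.subset fun k hk => by
    have hk' : t k ≠ 0 := hk
    show hd Y T.obj₃ k ≠ 0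
    rw [h3]
    omega
  show chi Y T.obj₂ = chi Y T.obj₁ + chi Y T.obj₃
  unfold chi
  simp only [h1, h2, h3]
  exact sum_alt r s t hr hs ht

theorem isAdd_chi_left [HomFinite D] (Y : D) : IsAdd fun F : D => chi F Y := by
  intro T hT
  obtain ⟨r, s, t, h1, h2, h3, -⟩ := lesB T hT Y
  have b1 := HomFinite.bounded T.obj₁ Y
  have b3 := HomFinite.bounded T.obj₃ Y
  have hr : (Function.support r).Finite := b1.subset fun k hk => by
    have hk' : r k ≠ 0 := hk
    show hd T.obj₁ Y k ≠ 0
    rw [h1]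
    omega
  have ht : (Function.support t).Finite := b1.subset fun k hk => by
    have hk' : t k ≠ 0 := hk
    show hd T.obj₁ Y k ≠ 0
    rw [h1]
    omega
  have hs : (Function.support s).Finite := b3.subset fun k hk => by
    have hk' : s k ≠ 0 := hk
    show hd T.obj₃ Y k ≠ 0
    rw [h3]
    omega
  show chi T.obj₂ Y = chi T.obj₁ Y + chi T.obj₃ Y
  have h4 := sum_alt s r t hs hr ht
  have e1 : chi T.obj₂ Y = ∑ᶠ k : ℤ, (Int.negOnePow k : ℤ) * ((s k + r k : ℕ) : ℤ) := by
    unfold chi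
    refine finsum_congr fun k => ?_
    rw [h2, add_comm (r k)]
  have e2 : chi T.obj₃ Y = ∑ᶠ k : ℤ, (Int.negOnePow k : ℤ) * ((t (k - 1) + s k : ℕ) : ℤ) := by
    unfold chi
    refine finsum_congr fun k => ?_
    rw [h3, add_comm (s k)]
  have e3 : chi T.obj₁ Y = ∑ᶠ k : ℤ, (Int.negOnePow k : ℤ) * ((r k + t k : ℕ) : ℤ) := by
    unfold chi
    refine finsum_congr fun k => ?_
    rw [h1]
  rw [e1, e2, e3, h4, add_comm]

theorem chi_exc {E : D} (h : IsExc E) : chi E E = 1 := by
  unfold chi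
  rw [finsum_eq_single _ (0 : ℤ)]
  · rw [h 0]
    simp
  · intro k hk
    rw [h k, if_neg hk]
    simp

theorem chi_eq_zero {E F : D} (h : ∀ k, hd E F k = 0) : chi E F = 0 := by
  unfold chi
  have h1 : ∀ k : ℤ, (Int.negOnePow k : ℤ) * (hd E F k : ℤ) = 0 := fun k => by
    rw [h k]
    simp
  simp only [h1, finsum_zero]

end Pool.Agent.TCM
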