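import Mathlib

/-!
# Exceptional collections in triangulated categories

`D` is a `ℂ`-linear (pre)triangulated category; the main example is the bounded derived category
`D^b(X)` of coherent sheaves on a smooth projective variety `X` over `ℂ`.
-/

open scoped BigOperators
open CategoryTheory CategoryTheory.Limits CategoryTheory.Pretriangulated

namespace Pool.Agent.TCM

universe v u

variable {D : Type u} [Category.{v} D] [Preadditive D] [HasZeroObject D] [HasShift D ℤ]
  [∀ n : ℤ, (shiftFunctor D n).Additive] [Pretriangulated D] [Linear ℂ D]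

/-- `dim Hom(E, F[k])`. -/
noncomputable def hd (E F : D) (k : ℤ) : ℕ := Module.finrank ℂ (E ⟶ F⟦k⟧)

variable (D) in
/-- The total spaces `⊕_k Hom(E, F[k])` are finite-dimensional. -/
class HomFinite : Prop where
  finite : ∀ E F : D, Module.Finite ℂ (E ⟶ F)
  bounded : ∀ E F : D, {k : ℤ | hd E F k ≠ 0}.Finite

/-- The Euler form `χ(E, F) = ∑_k (-1)^k dim Hom(E, F[k])`. -/
noncomputable def chi (E F : D) : ℤ := ∑ᶠ k : ℤ, (Int.negOnePow k : ℤ) * (hd E F k : ℤ)

/-- `E` is exceptional: `Hom(E, E[k])` is `ℂ` for `k = 0` and `0` otherwise. -/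
def IsExc (E : D) : Prop := ∀ k, hd E E k = if k = 0 then 1 else 0

/-- The objects generated by the objects in `S` as a triangulated category: the smallest class
which contains `S` and `0` and is closed under isomorphisms, shifts and cones. -/
inductive Gen (S : Set D) : D → Prop
  | of (E : D) : E ∈ S → Gen S E
  | zero (E : D) : IsZero E → Gen S E
  | iso (E F : D) : (E ≅ F) → Gen S E → Gen S F
  | shift (E : D) (n : ℤ) : Gen S E → Gen S (E⟦n⟧)
  | cone (T : Triangle D) : T ∈ distTriang D → Gen S T.obj₁ → Gen S T.obj₂ → Gen S T.obj₃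

/-- `(E_1, …, E_N)` is a full exceptional collection: the `E_i` are exceptional,
`Hom(E_i, E_j[k]) = 0` for `i > j` and all `k`, and the `E_i` generate `D` as a triangulated
category. -/
structure IsFullExceptional {N : ℕ} (E : Fin N → D) : Prop where
  exceptional : ∀ i, IsExc (E i)
  orthogonal : ∀ i j, j < i → ∀ k, hd (E i) (E j) k = 0
  full : ∀ X : D, Gen (Set.range E) X

/-- The same for a list of objects. -/
structure IsFEC (L : List D) : Prop where
  exceptional : ∀ E ∈ L, IsExc E
  orthogonal : L.Pairwise fun E F => ∀ k, hd F E k = 0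
  full : ∀ X : D, Gen {E | E ∈ L} X

/-- `φ` is additive: `φ(T_2) = φ(T_1) + φ(T_3)` for all distinguished triangles; for example the
Chern character on `D^b(X)`. -/
def IsAdd {M : Type} [AddCommGroup M] (φ : D → M) : Prop :=
  ∀ T : Triangle D, T ∈ distTriang D → φ T.obj₂ = φ T.obj₁ + φ T.obj₃

/-- `B` is obtained from `A` by attaching shifts of `E`. -/
inductive Att (E : D) (A : D) : D → Prop
  | refl : Att E A A
  | step (B C : D) (j : ℤ) (f : E⟦j⟧ ⟶ B) (g : B ⟶ C) (h : C ⟶ (E⟦j⟧)⟦(1 : ℤ)⟧) :
      Triangle.mk f g h ∈ distTriang D → Att E A B → Att E A C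

end Pool.Agent.TCM
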