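import Pool.Agent.TCM.Att

/-!
# The left mutation of an object through an exceptional object

If `Hom(E, F[k])` is not `0`, there is a nonzero `f : E⟦-k⟧ ⟶ F`, and for the cone `C` of `f` the long
exact sequence shows `hd E C m = hd E F m - δ_{m k}`. After finitely many steps one gets an object `G`
with `hd E G k = 0` for all `k`.
-/

open scoped BigOperators
open CategoryTheory CategoryTheory.Limits CategoryTheory.Pretriangulated

namespace Pool.Agent.TCM

universe v u

variable {D : Type u} [Category.{v} D] [Preadditive D] [HasZeroObject D] [HasShift D ℤ]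
  [∀ n : ℤ, (shiftFunctor D n).Additive] [Pretriangulated D] [Linear ℂ D]
  [∀ n : ℤ, Functor.Linear ℂ (shiftFunctor D n)]

omit [HasZeroObject D] [Pretriangulated D] [∀ n : ℤ, Functor.Linear ℂ (shiftFunctor D n)] in
private theorem lmut_exists_mor {E F : D} {k : ℤ} (hk : hd E F k ≠ 0) :
    ∃ (f : E⟦-k⟧ ⟶ F) (g : E ⟶ E⟦-k⟧⟦k⟧), g ≫ f⟦k⟧' ≠ 0 := by
  obtain ⟨u, hu⟩ : ∃ u : E ⟶ F⟦k⟧, u ≠ 0 := by
    by_contra hcon
    push Not at hcon
    apply hk
    have : Subsingleton (E ⟶ F⟦k⟧) := ⟨fun a b => by rw [hcon a, hcon b]⟩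
    exact Module.finrank_zero_of_subsingleton
  refine ⟨u⟦-k⟧' ≫ (shiftShiftNeg F k).hom, (shiftNegShift E k).inv, ?_⟩
  intro h0
  have h1 : (u⟦-k⟧' ≫ (shiftShiftNeg F k).hom)⟦k⟧' = 0 := by
    rw [← cancel_epi (shiftNegShift E k).inv, h0, comp_zero]
  have h3 : u⟦-k⟧' ≫ (shiftShiftNeg F k).hom = 0 := by
    apply (shiftFunctor D k).map_injective
    rw [h1, Functor.map_zero]
  have h4 : u⟦-k⟧' = 0 := by
    rw [← cancel_mono (shiftShiftNeg F k).hom, h3, zero_comp]
  apply hu
  apply (shiftFunctor D (-k)).map_injective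
  rw [h4, Functor.map_zero]

/-- One step. -/
theorem lmut_step [HomFinite D] {E : D} (hE : IsExc E) (F : D) (k : ℤ) (hk : hd E F k ≠ 0) :
    ∃ C : D, Att E F C ∧ ∀ m, hd E C m + (if m = k then 1 else 0) = hd E F m := by
  obtain ⟨f, g, hfg⟩ := lmut_exists_mor hk
  obtain ⟨C, g', h', hT⟩ := distinguished_cocone_triangle f
  obtain ⟨r, s, t, h1, h2, h3, h4⟩ := lesA _ hT E
  refine ⟨C, Att.of_cone f g' h' hT, fun m => ?_⟩
  have hE' : ∀ m, hd E (E⟦-k⟧) m = if m = k then 1 else 0 := by
    intro m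
    rw [hd_shift_right, hE]
    by_cases hm : m = k
    · subst hm
      simp
    · rw [if_neg hm, if_neg (by omega)]
  have hr : r k ≠ 0 := fun h0 => hfg (h4 k h0 g)
  have h1' : ∀ m, hd E (E⟦-k⟧) m = t (m - 1) + r m := h1
  have h2' : ∀ m, hd E F m = r m + s m := h2
  have h3' : ∀ m, hd E C m = s m + t m := h3
  have hsum : ∀ m, t (m - 1) + r m = if m = k then 1 else 0 := fun m => by
    rw [← h1' m, hE' m]
  have ht : ∀ m, t m = 0 := by
    intro m
    have h5 := hsum (m + 1)
    rw [show m + 1 - 1 = m by ring] at h5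
    by_cases hm : m + 1 = k
    · rw [if_pos hm] at h5
      rw [hm] at h5
      omega
    · rw [if_neg hm] at h5
      omega
  have hrm : r m = if m = k then 1 else 0 := by
    rw [← hsum m, ht, zero_add]
  rw [h2' m, h3' m, ht m, hrm, add_zero, add_comm]

/-- The left mutation. -/
theorem exists_lmut [HomFinite D] {E : D} (hE : IsExc E) (F : D) :
    ∃ G : D, Att E F G ∧ ∀ k, hd E G k = 0 := by
  have key : ∀ n : ℕ, ∀ F : D, ∑ᶠ k : ℤ, hd E F k = n → ∃ G : D, Att E F G ∧ ∀ k, hd E G k = 0 := by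
    intro n
    induction n using Nat.strong_induction_on with
    | _ n ih =>
      intro F hF
      by_cases h0 : ∀ k, hd E F k = 0
      · exact ⟨F, Att.refl, h0⟩
      · push Not at h0
        obtain ⟨k, hk⟩ := h0
        obtain ⟨C, hC, hm⟩ := lmut_step hE F k hk
        have h1 : ∑ᶠ m : ℤ, hd E F m = ∑ᶠ m : ℤ, hd E C m + 1 := by
          have h2 : ∑ᶠ m : ℤ, hd E F m = ∑ᶠ m : ℤ, (hd E C m + (if m = k then 1 else 0)) :=
            finsum_congr fun m => (hm m).symm
          rw [h2, finsum_add_distrib]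
          · congr 1
            rw [finsum_eq_single _ k (fun x hx => if_neg hx), if_pos rfl]
          · exact HomFinite.bounded E C
          · refine (Set.finite_singleton k).subset fun x hx => ?_
            by_contra hxk
            exact hx (if_neg hxk)
        obtain ⟨G, hG, hG0⟩ := ih (∑ᶠ m : ℤ, hd E C m) (by omega) C rfl
        exact ⟨G, hC.trans hG, hG0⟩
  exact key _ F rfl

end Pool.Agent.TCM
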