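import Pool.Agent.TCM.Rk
import Pool.Agent.TCM.Sh

/-!
# The long exact sequence of `Hom(Y, -)`

`r k`, `s k`, `t k` are the ranks of the `k`-th shifts of the three morphisms of the triangle on
`Hom(Y, -)`. The shifted triangle is distinguished (its morphisms carry signs) and its rotations
give the dimensions of the spaces `Hom(Y, T_i[k])`; the morphism `mor₁⟦k - 1⟧⟦1⟧` is compared with
`mor₁⟦k⟧` by the naturality of `shiftFunctorAdd'`.
-/

open scoped BigOperators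
open CategoryTheory CategoryTheory.Limits CategoryTheory.Pretriangulated

namespace Pool.Agent.TCM

universe v u

variable {D : Type u} [Category.{v} D] [Preadditive D] [HasZeroObject D] [HasShift D ℤ]
  [∀ n : ℤ, (shiftFunctor D n).Additive] [Pretriangulated D] [Linear ℂ D]
  [∀ n : ℤ, Functor.Linear ℂ (shiftFunctor D n)]

private theorem lesA_sgn {A B : D} (Y : D) (f : A ⟶ B) (n : ℤ) :
    rkL Y (n.negOnePow • f) = rkL Y f := by
  rcases Int.even_or_odd n with h | h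
  · rw [Int.negOnePow_even n h, one_smul]
  · have h1 : ((-1 : ℤˣ) • f) = -f := by
      rw [Units.smul_def]
      simp
    rw [Int.negOnePow_odd n h, h1, rkL_neg]

private theorem lesA_right {A B B' : D} (Y : D) (f : A ⟶ B) (b : B ≅ B') :
    rkL Y (f ≫ b.hom) = rkL Y f := by
  have h := rkL_iso Y f (Iso.refl A) b
  rwa [Iso.refl_hom, Category.id_comp] at h

private theorem lesA_shift {A B : D} (Y : D) (f : A ⟶ B) (k : ℤ) :
    rkL Y ((f⟦k - 1⟧')⟦(1 : ℤ)⟧') = rkL Y (f⟦k⟧') := by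
  have h := (shiftFunctorAdd' D (k - 1) 1 k (by ring)).hom.naturality f
  have h2 : (f⟦k - 1⟧')⟦(1 : ℤ)⟧' =
      ((shiftFunctorAdd' D (k - 1) 1 k (by ring)).app A).symm.hom ≫ f⟦k⟧' ≫
        ((shiftFunctorAdd' D (k - 1) 1 k (by ring)).app B).hom := by
    show _ = (shiftFunctorAdd' D (k - 1) 1 k (by ring)).inv.app A ≫ f⟦k⟧' ≫
      (shiftFunctorAdd' D (k - 1) 1 k (by ring)).hom.app B
    rw [h, Iso.inv_hom_id_app_assoc]
    rfl
  rw [h2]
  exact rkL_iso Y _ _ _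

theorem lesA [HomFinite D] (T : Triangle D) (hT : T ∈ distTriang D) (Y : D) :
    ∃ r s t : ℤ → ℕ, (∀ k, hd Y T.obj₁ k = t (k - 1) + r k) ∧
      (∀ k, hd Y T.obj₂ k = r k + s k) ∧ (∀ k, hd Y T.obj₃ k = s k + t k) ∧
      ∀ k, r k = 0 → ∀ g : Y ⟶ T.obj₁⟦k⟧, g ≫ T.mor₁⟦k⟧' = 0 := by
  have hm3 : ∀ k : ℤ, rkL Y (k.negOnePow • (T.mor₃⟦k⟧' ≫ (shiftFunctorComm D 1 k).hom.app T.obj₁)) =
      rkL Y (T.mor₃⟦k⟧') := fun k => by
    rw [lesA_sgn]
    exact lesA_right Y _ ((shiftFunctorComm D 1 k).app T.obj₁)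
  have hd' : ∀ k : ℤ, (Triangle.shiftFunctor D k).obj T ∈ distTriang D := fun k =>
    Triangle.shift_distinguished T hT k
  refine ⟨fun k => rkL Y (T.mor₁⟦k⟧'), fun k => rkL Y (T.mor₂⟦k⟧'),
    fun k => rkL Y (T.mor₃⟦k⟧'), fun k => ?_, fun k => ?_, fun k => ?_, fun k hk g => ?_⟩
  · have h1 : Module.finrank ℂ (Y ⟶ (T.obj₁⟦k - 1⟧)⟦(1 : ℤ)⟧) =
        rkL Y ((k - 1).negOnePow • (T.mor₃⟦k - 1⟧' ≫
          (shiftFunctorComm D 1 (k - 1)).hom.app T.obj₁)) +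
        rkL Y (-(((k - 1).negOnePow • T.mor₁⟦k - 1⟧')⟦(1 : ℤ)⟧')) :=
      finrank_mid_L ((Triangle.shiftFunctor D (k - 1)).obj T).rotate.rotate
        (rot_of_distTriang _ (rot_of_distTriang _ (hd' (k - 1)))) Y
    rw [hm3, rkL_neg] at h1
    have h2 : (((k - 1).negOnePow • T.mor₁⟦k - 1⟧')⟦(1 : ℤ)⟧') =
        (k - 1).negOnePow • ((T.mor₁⟦k - 1⟧')⟦(1 : ℤ)⟧') := by
      rw [Functor.map_units_smul]
    rw [h2, lesA_sgn, lesA_shift] at h1
    have h3 : hd Y T.obj₁ k = Module.finrank ℂ (Y ⟶ (T.obj₁⟦k - 1⟧)⟦(1 : ℤ)⟧) :=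
      finrank_iso (Iso.refl Y) ((shiftFunctorAdd' D (k - 1) 1 k (by ring)).app T.obj₁)
    rw [h3, h1]
  · have h1 : Module.finrank ℂ (Y ⟶ T.obj₂⟦k⟧) =
        rkL Y (k.negOnePow • T.mor₁⟦k⟧') + rkL Y (k.negOnePow • T.mor₂⟦k⟧') :=
      finrank_mid_L ((Triangle.shiftFunctor D k).obj T) (hd' k) Y
    rw [lesA_sgn, lesA_sgn] at h1
    exact h1
  · have h1 : Module.finrank ℂ (Y ⟶ T.obj₃⟦k⟧) =
        rkL Y (k.negOnePow • T.mor₂⟦k⟧') + rkL Y (k.negOnePow • (T.mor₃⟦k⟧' ≫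
          (shiftFunctorComm D 1 k).hom.app T.obj₁)) :=
      finrank_mid_L ((Triangle.shiftFunctor D k).obj T).rotate (rot_of_distTriang _ (hd' k)) Y
    rw [lesA_sgn, hm3] at h1
    exact h1
  · exact rkL_eq_zero Y _ hk g

end Pool.Agent.TCM
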