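import Pool.Agent.TCM.Att

/-!
# The right mutation of an object through an exceptional object

Dual to `LMut`. If `Hom(E, F[k])` is not `0`, there is a nonzero `g : E ⟶ F⟦k⟧` and a distinguished
triangle `R → E → F⟦k⟧ →`, and the long exact sequence of `Hom(-, F)` shows
`hd R F m = hd E F m - δ_{m k}`.
-/

open scoped BigOperators
open CategoryTheory CategoryTheory.Limits CategoryTheory.Pretriangulated

namespace Pool.Agent.TCM

universe v u

variable {D : Type u} [Category.{v} D] [Preadditive D] [HasZeroObject D] [HasShift D ℤ]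
  [∀ n : ℤ, (shiftFunctor D n).Additive] [Pretriangulated D] [Linear ℂ D]
  [∀ n : ℤ, Functor.Linear ℂ (shiftFunctor D n)]

/-- One step. -/
theorem rmut_step [HomFinite D] {F : D} (hF : IsExc F) (E : D) (k : ℤ) (hk : hd E F k ≠ 0) :
    ∃ R : D, Att F R E ∧ ∀ m, hd R F m + (if m = k then 1 else 0) = hd E F m := by
  obtain ⟨g, hg⟩ : ∃ g : E ⟶ F⟦k⟧, g ≠ 0 := by
    by_contra hcon
    push Not at hcon
    apply hk
    have : Subsingleton (E ⟶ F⟦k⟧) := ⟨fun a b => by rw [hcon a, hcon b]⟩
    exact Module.finrank_zero_of_subsingleton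
  obtain ⟨R, f', h', hT⟩ := distinguished_cocone_triangle₁ g
  obtain ⟨r, s, t, h1, h2, h3, h4⟩ := lesB _ hT F
  refine ⟨R, Att.of_cocone f' g h' hT, fun m => ?_⟩
  have hF' : ∀ m, hd (F⟦k⟧) F m = if m = k then 1 else 0 := by
    intro m
    rw [hd_shift_left, hF]
    by_cases hm : m = k
    · subst hm
      simp
    · rw [if_neg hm, if_neg (by omega)]
  have hs : s k ≠ 0 := by
    intro h0
    apply hg
    have h5 : g ≫ 𝟙 (F⟦k⟧) = 0 := h4 k h0 (𝟙 _)
    rwa [Category.comp_id] at h5
  have h1' : ∀ m, hd R F m = r m + t m := h1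
  have h2' : ∀ m, hd E F m = r m + s m := h2
  have h3' : ∀ m, hd (F⟦k⟧) F m = s m + t (m - 1) := h3
  have hsum : ∀ m, s m + t (m - 1) = if m = k then 1 else 0 := fun m => by
    rw [← h3' m, hF' m]
  have ht : ∀ m, t m = 0 := by
    intro m
    have h5 := hsum (m + 1)
    rw [show m + 1 - 1 = m by ring] at h5
    by_cases hm : m + 1 = k
    · rw [if_pos hm] at h5
      rw [hm] at h5
      omega
    · rw [if_neg hm] at h5
      omega
  have hsm : s m = if m = k then 1 else 0 := by
    rw [← hsum m, ht, add_zero]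
  rw [h2' m, h1' m, ht m, hsm, add_zero]

/-- The right mutation. -/
theorem exists_rmut [HomFinite D] {F : D} (hF : IsExc F) (E : D) :
    ∃ R : D, Att F R E ∧ ∀ k, hd R F k = 0 := by
  have key : ∀ n : ℕ, ∀ E : D, ∑ᶠ k : ℤ, hd E F k = n → ∃ R : D, Att F R E ∧ ∀ k, hd R F k = 0 := by
    intro n
    induction n using Nat.strong_induction_on with
    | _ n ih =>
      intro E hE
      by_cases h0 : ∀ k, hd E F k = 0
      · exact ⟨E, Att.refl, h0⟩
      · push Not at h0
        obtain ⟨k, hk⟩ := h0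
        obtain ⟨C, hC, hm⟩ := rmut_step hF E k hk
        have h1 : ∑ᶠ m : ℤ, hd E F m = ∑ᶠ m : ℤ, hd C F m + 1 := by
          have h2 : ∑ᶠ m : ℤ, hd E F m = ∑ᶠ m : ℤ, (hd C F m + (if m = k then 1 else 0)) :=
            finsum_congr fun m => (hm m).symm
          rw [h2, finsum_add_distrib]
          · congr 1
            rw [finsum_eq_single _ k (fun x hx => if_neg hx), if_pos rfl]
          · exact HomFinite.bounded C F
          · refine (Set.finite_singleton k).subset fun x hx => ?_
            by_contra hxk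
            exact hx (if_neg hxk)
        obtain ⟨R, hR, hR0⟩ := ih (∑ᶠ m : ℤ, hd C F m) (by omega) C rfl
        exact ⟨R, hR.trans hC, hR0⟩
  exact key _ E rfl

end Pool.Agent.TCM
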