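import Pool.Agent.TCM.LMut
import Pool.Agent.TCM.RMut
import Pool.Agent.TCM.Chi

/-!
# Mutations of full exceptional collections (Bondal)

Two consecutive members `E, F` of a full exceptional collection may be replaced by `G, E`, where `G` is
the left mutation of `F` through `E`, or by `F, R`, where `R` is the right mutation of `E` through `F`;
the values of an additive function change as in the Grothendieck group.
-/

open scoped BigOperators
open CategoryTheory CategoryTheory.Limits CategoryTheory.Pretriangulated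

namespace Pool.Agent.TCM

universe v u

variable {D : Type u} [Category.{v} D] [Preadditive D] [HasZeroObject D] [HasShift D ℤ]
  [∀ n : ℤ, (shiftFunctor D n).Additive] [Pretriangulated D] [Linear ℂ D]
  [∀ n : ℤ, Functor.Linear ℂ (shiftFunctor D n)]

theorem Gen.trans {S S' : Set D} (h : ∀ E ∈ S, Gen S' E) {X : D} (hX : Gen S X) : Gen S' X := by
  induction hX with
  | of E hE => exact h E hE
  | zero E hE => exact Gen.zero E hE
  | iso E F e _ ih => exact Gen.iso E F e ih
  | shift E n _ ih => exact Gen.shift E n ih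
  | cone T hT _ _ ih1 ih2 => exact Gen.cone T hT ih1 ih2

/-- The conditions on the members of a list around two consecutive places. -/
private theorem pw_iff {l₁ l₂ : List D} {A B : D} (r : D → D → Prop) :
    (l₁ ++ A :: B :: l₂).Pairwise r ↔
      l₁.Pairwise r ∧ l₂.Pairwise r ∧ r A B ∧ (∀ X ∈ l₂, r A X ∧ r B X) ∧
        (∀ X ∈ l₁, r X A ∧ r X B) ∧ ∀ X ∈ l₁, ∀ Z ∈ l₂, r X Z := by
  rw [List.pairwise_append, List.pairwise_cons, List.pairwise_cons]
  constructor
  · rintro ⟨h1, ⟨h2, h3, h4⟩, h5⟩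
    refine ⟨h1, h4, h2 B (by simp), fun X hX => ⟨h2 X (by simp [hX]), h3 X hX⟩,
      fun X hX => ⟨h5 X hX A (by simp), h5 X hX B (by simp)⟩, fun X hX Z hZ =>
        h5 X hX Z (by simp [hZ])⟩
  · rintro ⟨h1, h2, h3, h4, h5, h6⟩
    refine ⟨h1, ⟨?_, fun X hX => (h4 X hX).2, h2⟩, ?_⟩
    · intro X hX
      rcases List.mem_cons.1 hX with rfl | hX
      · exact h3
      · exact (h4 X hX).1
    · intro X hX Z hZ
      rcases List.mem_cons.1 hZ with rfl | hZ
      · exact (h5 X hX).1
      · rcases List.mem_cons.1 hZ with rfl | hZ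
        · exact (h5 X hX).2
        · exact h6 X hX Z hZ

theorem IsFEC.lmut [HomFinite D] {l₁ l₂ : List D} {E F : D} (h : IsFEC (l₁ ++ E :: F :: l₂)) :
    ∃ G : D, IsFEC (l₁ ++ G :: E :: l₂) ∧
      ∀ {M : Type} [AddCommGroup M] (φ : D → M), IsAdd φ → φ G = φ F - chi E F • φ E := by
  obtain ⟨hex, hor, hfull⟩ := h
  have hE : IsExc E := hex E (by simp)
  have hF : IsExc F := hex F (by simp)
  obtain ⟨h1, h2, h3, h4, h5, h6⟩ := (pw_iff _).1 hor
  obtain ⟨G, hG, hEG⟩ := exists_lmut hE F
  refine ⟨G, ⟨?_, ?_, ?_⟩, ?_⟩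
  · intro X hX
    rcases List.mem_append.1 hX with hX | hX
    · exact hex X (by simp [hX])
    · rcases List.mem_cons.1 hX with rfl | hX
      · intro k
        rw [hG.hd_left hEG k, hG.hd_right h3 k, hF k]
      · rcases List.mem_cons.1 hX with rfl | hX
        · exact hE
        · exact hex X (by simp [hX])
  · refine (pw_iff _).2 ⟨h1, h2, hEG, fun X hX => ⟨fun k => ?_, (h4 X hX).1⟩,
      fun X hX => ⟨fun k => ?_, (h5 X hX).1⟩, h6⟩
    · rw [hG.hd_right (h4 X hX).1 k, (h4 X hX).2 k]
    · rw [hG.hd_left (h5 X hX).1 k, (h5 X hX).2 k]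
  · intro X
    refine Gen.trans (fun Z hZ => ?_) (hfull X)
    have hEg : Gen {X | X ∈ l₁ ++ G :: E :: l₂} E := Gen.of E (by simp)
    rcases List.mem_append.1 hZ with hZ | hZ
    · exact Gen.of Z (by simp [hZ])
    · rcases List.mem_cons.1 hZ with rfl | hZ
      · exact hEg
      · rcases List.mem_cons.1 hZ with rfl | hZ
        · exact (hG.gen hEg).2 (Gen.of G (by simp))
        · exact Gen.of Z (by simp [hZ])
  · intro M _ φ hφ
    obtain ⟨n, hn⟩ := hG.add
    have e1 : chi E G = chi E F - n • chi E E := hn (fun X => chi E X) (isAdd_chi_right E)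
    rw [chi_eq_zero hEG, chi_exc hE, smul_eq_mul, mul_one] at e1
    have e2 : n = chi E F := by linarith
    rw [hn φ hφ, e2]

theorem IsFEC.rmut [HomFinite D] {l₁ l₂ : List D} {E F : D} (h : IsFEC (l₁ ++ E :: F :: l₂)) :
    ∃ R : D, IsFEC (l₁ ++ F :: R :: l₂) ∧
      ∀ {M : Type} [AddCommGroup M] (φ : D → M), IsAdd φ → φ R = φ E - chi E F • φ F := by
  obtain ⟨hex, hor, hfull⟩ := h
  have hE : IsExc E := hex E (by simp)
  have hF : IsExc F := hex F (by simp)
  obtain ⟨h1, h2, h3, h4, h5, h6⟩ := (pw_iff _).1 hor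
  obtain ⟨R, hR, hRF⟩ := exists_rmut hF E
  refine ⟨R, ⟨?_, ?_, ?_⟩, ?_⟩
  · intro X hX
    rcases List.mem_append.1 hX with hX | hX
    · exact hex X (by simp [hX])
    · rcases List.mem_cons.1 hX with rfl | hX
      · exact hF
      · rcases List.mem_cons.1 hX with rfl | hX
        · intro k
          rw [← hR.hd_right hRF k, ← hR.hd_left h3 k, hE k]
        · exact hex X (by simp [hX])
  · refine (pw_iff _).2 ⟨h1, h2, hRF, fun X hX => ⟨(h4 X hX).2, fun k => ?_⟩,
      fun X hX => ⟨(h5 X hX).2, fun k => ?_⟩, h6⟩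
    · rw [← hR.hd_right (h4 X hX).2 k, (h4 X hX).1 k]
    · rw [← hR.hd_left (h5 X hX).2 k, (h5 X hX).1 k]
  · intro X
    refine Gen.trans (fun Z hZ => ?_) (hfull X)
    have hFg : Gen {X | X ∈ l₁ ++ F :: R :: l₂} F := Gen.of F (by simp)
    rcases List.mem_append.1 hZ with hZ | hZ
    · exact Gen.of Z (by simp [hZ])
    · rcases List.mem_cons.1 hZ with rfl | hZ
      · exact (hR.gen hFg).1 (Gen.of R (by simp))
      · rcases List.mem_cons.1 hZ with rfl | hZ
        · exact hFg
        · exact Gen.of Z (by simp [hZ])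
  · intro M _ φ hφ
    obtain ⟨n, hn⟩ := hR.add
    have e1 : chi E F = chi R F - n • chi F F := hn (fun X => chi X F) (isAdd_chi_left F)
    rw [chi_eq_zero hRF, chi_exc hF, smul_eq_mul, mul_one] at e1
    have e2 : n = -chi E F := by linarith
    have e3 := hn φ hφ
    rw [e2] at e3
    rw [e3, neg_smul, sub_neg_eq_add, add_sub_cancel_right]

theorem isAdd_shift_one {M : Type} [AddCommGroup M] {φ : D → M} (h : IsAdd φ) (E : D) :
    φ (E⟦(1 : ℤ)⟧) = -φ E := by
  rw [isAdd_shift h]
  simp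

theorem IsFEC.shift {l₁ l₂ : List D} {E : D} (h : IsFEC (l₁ ++ E :: l₂)) :
    IsFEC (l₁ ++ E⟦(1 : ℤ)⟧ :: l₂) := by
  obtain ⟨hex, hor, hfull⟩ := h
  rw [List.pairwise_append, List.pairwise_cons] at hor
  obtain ⟨h1, ⟨h2, h3⟩, h4⟩ := hor
  refine ⟨?_, ?_, ?_⟩
  · intro X hX
    rcases List.mem_append.1 hX with hX | hX
    · exact hex X (by simp [hX])
    · rcases List.mem_cons.1 hX with rfl | hX
      · exact (hex E (by simp)).shift 1
      · exact hex X (by simp [hX])
  · rw [List.pairwise_append, List.pairwise_cons]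
    refine ⟨h1, ⟨fun X hX k => ?_, h3⟩, fun X hX Z hZ => ?_⟩
    · rw [hd_shift_right, h2 X hX]
    · rcases List.mem_cons.1 hZ with rfl | hZ
      · intro k
        rw [hd_shift_left]
        exact h4 X hX E (by simp) _
      · exact h4 X hX Z (by simp [hZ])
  · intro X
    refine Gen.trans (fun Z hZ => ?_) (hfull X)
    rcases List.mem_append.1 hZ with hZ | hZ
    · exact Gen.of Z (by simp [hZ])
    · rcases List.mem_cons.1 hZ with rfl | hZ
      · exact Gen.iso _ _ ((shiftFunctorCompIsoId D (1 : ℤ) (-1) (by norm_num)).app Z)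
          (Gen.shift _ (-1) (Gen.of _ (by simp)))
      · exact Gen.of Z (by simp [hZ])

/-- From lists to families. -/
theorem IsFEC.ofFn {N : ℕ} (E : Fin N → D) : IsFEC (List.ofFn E) ↔ IsFullExceptional E := by
  have hset : {X : D | X ∈ List.ofFn E} = Set.range E := by
    ext X
    simp [List.mem_ofFn]
  constructor
  · rintro ⟨h1, h2, h3⟩
    refine ⟨fun i => h1 _ (by simp [List.mem_ofFn]), fun i j hij => ?_, fun X => ?_⟩
    · rw [List.pairwise_ofFn] at h2
      exact h2 hij
    · rw [← hset]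
      exact h3 X
  · rintro ⟨h1, h2, h3⟩
    refine ⟨?_, ?_, ?_⟩
    · intro X hX
      obtain ⟨i, rfl⟩ := List.mem_ofFn.1 hX
      exact h1 i
    · rw [List.pairwise_ofFn]
      intro i j hij
      exact h2 j i hij
    · intro X
      rw [hset]
      exact h3 X

end Pool.Agent.TCM
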