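import Pool.Agent.TCM.Defs

/-!
# Exact sequences of Hom spaces: ranks

`rkL Y f` is the rank of `f_* : Hom(Y, A) → Hom(Y, B)` (`Linear.rightComp`), `rkR f Y` the rank
of `f^* : Hom(B, Y) → Hom(A, Y)` (`Linear.leftComp`). Rank-nullity and exactness give the
dimension of the middle space of a distinguished triangle; the rank is invariant under signs and
isomorphisms, and it is `0` exactly when the map is `0`.
-/

open scoped BigOperators
open CategoryTheory CategoryTheory.Limits CategoryTheory.Pretriangulated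

namespace Pool.Agent.TCM

universe v u

variable {D : Type u} [Category.{v} D] [Preadditive D] [HasZeroObject D] [HasShift D ℤ]
  [∀ n : ℤ, (shiftFunctor D n).Additive] [Pretriangulated D] [Linear ℂ D]

/-- the rank of composition with `f` on `Hom(Y, -)` -/
noncomputable def rkL {A B : D} (Y : D) (f : A ⟶ B) : ℕ :=
  Module.finrank ℂ (LinearMap.range (Linear.rightComp ℂ Y f))

/-- the rank of composition with `f` on `Hom(-, Y)` -/
noncomputable def rkR {A B : D} (f : A ⟶ B) (Y : D) : ℕ :=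
  Module.finrank ℂ (LinearMap.range (Linear.leftComp ℂ Y f))

theorem rkL_eq_zero [HomFinite D] {A B : D} (Y : D) (f : A ⟶ B) (h : rkL Y f = 0)
    (g : Y ⟶ A) : g ≫ f = 0 := by
  haveI := HomFinite.finite (D := D) Y A
  haveI := HomFinite.finite (D := D) Y B
  unfold rkL at h
  have h1 : LinearMap.range (Linear.rightComp ℂ Y f) = ⊥ := Submodule.finrank_eq_zero.mp h
  have h2 : Linear.rightComp ℂ Y f = 0 := LinearMap.range_eq_bot.mp h1
  exact LinearMap.congr_fun h2 g

theorem rkR_eq_zero [HomFinite D] {A B : D} (f : A ⟶ B) (Y : D) (h : rkR f Y = 0)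
    (g : B ⟶ Y) : f ≫ g = 0 := by
  haveI := HomFinite.finite (D := D) A Y
  haveI := HomFinite.finite (D := D) B Y
  unfold rkR at h
  have h1 : LinearMap.range (Linear.leftComp ℂ Y f) = ⊥ := Submodule.finrank_eq_zero.mp h
  have h2 : Linear.leftComp ℂ Y f = 0 := LinearMap.range_eq_bot.mp h1
  exact LinearMap.congr_fun h2 g

theorem rkL_le_left [HomFinite D] {A B : D} (Y : D) (f : A ⟶ B) :
    rkL Y f ≤ Module.finrank ℂ (Y ⟶ A) := by
  haveI := HomFinite.finite (D := D) Y A
  exact LinearMap.finrank_range_le _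

theorem rkL_neg {A B : D} (Y : D) (f : A ⟶ B) : rkL Y (-f) = rkL Y f := by
  have h : Linear.rightComp ℂ Y (-f) = -(Linear.rightComp ℂ Y f) := by
    ext g
    simp
  unfold rkL
  rw [h, LinearMap.range_neg]

theorem rkR_neg {A B : D} (f : A ⟶ B) (Y : D) : rkR (-f) Y = rkR f Y := by
  have h : Linear.leftComp ℂ Y (-f) = -(Linear.leftComp ℂ Y f) := by
    ext g
    simp
  unfold rkR
  rw [h, LinearMap.range_neg]

/-- composition with an isomorphism as a linear equivalence -/
private noncomputable def rk_eL (Y : D) {A B : D} (a : A ≅ B) : (Y ⟶ A) ≃ₗ[ℂ] (Y ⟶ B) :=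
  LinearEquiv.ofLinear (Linear.rightComp ℂ Y a.hom) (Linear.rightComp ℂ Y a.inv)
    (by ext g; simp) (by ext g; simp)

/-- composition with an isomorphism as a linear equivalence -/
private noncomputable def rk_eR {A B : D} (a : A ≅ B) (Y : D) : (B ⟶ Y) ≃ₗ[ℂ] (A ⟶ Y) :=
  LinearEquiv.ofLinear (Linear.leftComp ℂ Y a.hom) (Linear.leftComp ℂ Y a.inv)
    (by ext g; simp) (by ext g; simp)

private theorem rk_range {V W V' W' : Type*} [AddCommGroup V] [Module ℂ V] [AddCommGroup W]
    [Module ℂ W] [AddCommGroup V'] [Module ℂ V'] [AddCommGroup W'] [Module ℂ W']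
    (e : V' ≃ₗ[ℂ] V) (l : V →ₗ[ℂ] W) (e' : W ≃ₗ[ℂ] W') :
    Module.finrank ℂ (LinearMap.range (e'.toLinearMap ∘ₗ l ∘ₗ e.toLinearMap)) =
      Module.finrank ℂ (LinearMap.range l) := by
  rw [LinearMap.range_comp, LinearEquiv.range_comp]
  exact LinearEquiv.finrank_map_eq e' _

/-- composition with isomorphisms on both sides does not change the rank -/
theorem rkL_iso {A B A' B' : D} (Y : D) (f : A ⟶ B) (a : A' ≅ A) (b : B ≅ B') :
    rkL Y (a.hom ≫ f ≫ b.hom) = rkL Y f := by
  have h : Linear.rightComp ℂ Y (a.hom ≫ f ≫ b.hom) =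
      (rk_eL Y b).toLinearMap ∘ₗ (Linear.rightComp ℂ Y f) ∘ₗ (rk_eL Y a).toLinearMap := by
    ext g
    simp [rk_eL]
  unfold rkL
  rw [h, rk_range]

theorem rkR_iso {A B A' B' : D} (f : A ⟶ B) (Y : D) (a : A' ≅ A) (b : B ≅ B') :
    rkR (a.hom ≫ f ≫ b.hom) Y = rkR f Y := by
  have h : Linear.leftComp ℂ Y (a.hom ≫ f ≫ b.hom) =
      (rk_eR a Y).toLinearMap ∘ₗ (Linear.leftComp ℂ Y f) ∘ₗ (rk_eR b Y).toLinearMap := by
    ext g
    simp [rk_eR]
  unfold rkR
  rw [h, rk_range]

/-- Exactness of `Hom(Y, -)` at the middle term of a distinguished triangle. -/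
theorem finrank_mid_L [HomFinite D] (T : Triangle D) (hT : T ∈ distTriang D) (Y : D) :
    Module.finrank ℂ (Y ⟶ T.obj₂) = rkL Y T.mor₁ + rkL Y T.mor₂ := by
  haveI := HomFinite.finite (D := D) Y T.obj₂
  have h := LinearMap.finrank_range_add_finrank_ker (Linear.rightComp ℂ Y T.mor₂)
  have h1 : LinearMap.ker (Linear.rightComp ℂ Y T.mor₂) =
      LinearMap.range (Linear.rightComp ℂ Y T.mor₁) := by
    ext g
    rw [LinearMap.mem_ker, LinearMap.mem_range]
    constructor
    · intro hg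
      obtain ⟨k, hk⟩ := Triangle.coyoneda_exact₂ T hT g hg
      exact ⟨k, hk.symm⟩
    · rintro ⟨k, rfl⟩
      change (k ≫ T.mor₁) ≫ T.mor₂ = 0
      rw [Category.assoc, comp_distTriang_mor_zero₁₂ T hT, comp_zero]
  rw [h1] at h
  unfold rkL
  omega

/-- Exactness of `Hom(-, Y)` at the middle term of a distinguished triangle. -/
theorem finrank_mid_R [HomFinite D] (T : Triangle D) (hT : T ∈ distTriang D) (Y : D) :
    Module.finrank ℂ (T.obj₂ ⟶ Y) = rkR T.mor₁ Y + rkR T.mor₂ Y := by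
  haveI := HomFinite.finite (D := D) T.obj₂ Y
  have h := LinearMap.finrank_range_add_finrank_ker (Linear.leftComp ℂ Y T.mor₁)
  have h1 : LinearMap.ker (Linear.leftComp ℂ Y T.mor₁) =
      LinearMap.range (Linear.leftComp ℂ Y T.mor₂) := by
    ext g
    rw [LinearMap.mem_ker, LinearMap.mem_range]
    constructor
    · intro hg
      obtain ⟨k, hk⟩ := Triangle.yoneda_exact₂ T hT g hg
      exact ⟨k, hk.symm⟩
    · rintro ⟨k, rfl⟩
      change T.mor₁ ≫ T.mor₂ ≫ k = 0
      rw [← Category.assoc, comp_distTriang_mor_zero₁₂ T hT, zero_comp]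
  rw [h1] at h
  unfold rkR
  omega

end Pool.Agent.TCM
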